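import Pool.Agent.Run7.h145.QK.D

/-! Invariant sets of the maps `T_{3,k}` along quadratic polynomials: cubes and representations. -/

set_option autoImplicit false

namespace Pool.Agent.Run7.h145.QK

open Finset Pool.Agent.H499R2.ND Filter Topology
open Pool.Agent.Run7.h145.QP (Pol Sy)
open Pool.Agent.Run7.h145.QL (Pts Bnd Mi pol_sub)
open Pool.Agent.Run7.h145.QL.X
open scoped Classical

/-- CUBES -/
theorem cube_law {s k : ℤ} {S : Set ℤ} {δ : ℤ → ℝ} (h : LawS s k S δ) {n : ℕ} {A : Fin n → Fin n → ℤ}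
    (hA : RankTwo A) (l : Fin n → ℤ) (c : ℤ) {ε : ℝ} (hε : 0 < ε) : ∀ᶠ N : ℕ in atTop,
      |({x : Fin n → ℤ | (∀ i, |x i| ≤ N) ∧ 0 < s * Val A l c x ∧ Val A l c x ∈ S}.ncard : ℝ) -
        ∑ j ∈ range k.natAbs, δ j *
          ({x : Fin n → ℤ | (∀ i, |x i| ≤ N) ∧ 0 < s * Val A l c x ∧ Val A l c x ≡ (j : ℤ) [ZMOD k]}.ncard : ℝ)| ≤
        ε * N ^ n := by
  obtain ⟨L, hL0, hL1, hL2⟩ := coef_bound l c
  obtain ⟨R₀, h1⟩ := h n A hA L (ε / 2 ^ n) 1 hL0 (by positivity) le_rfl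
  filter_upwards [eventually_ge_atTop (R₀ + 1)] with N hN
  have hN1 : (1 : ℝ) ≤ N := by exact_mod_cast (by omega : 1 ≤ N)
  obtain ⟨V, hV0, hV⟩ := val_bd A l c N
  have h2 := h1 (N + 1) (by omega) l c (fun _ => -(N : ℤ) - 1) (fun _ => (N : ℤ)) (fun i => by
      push_cast
      have := hL1 i
      nlinarith) (by
      push_cast
      have : (1 : ℝ) ≤ ((N : ℝ) + 1) ^ 2 := by nlinarith
      nlinarith) (fun i => by
      constructor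
      · rw [abs_le]; push_cast; constructor <;> omega
      · rw [abs_le]; push_cast; constructor <;> omega) (-V - 1) V Set.univ (fun _ _ _ => Iff.rfl)
  have e1 : ∀ P : ℤ → Prop, {x ∈ PointsS s A l c (fun _ => -(N : ℤ) - 1) (fun _ => (N : ℤ)) (-V - 1) V Set.univ |
      P (Val A l c x)} = {x : Fin n → ℤ | (∀ i, |x i| ≤ N) ∧ 0 < s * Val A l c x ∧ P (Val A l c x)} := by
    intro P
    ext x
    constructor
    · rintro ⟨⟨g1, g2, g3, -⟩, g5⟩; exact ⟨cube_iff.2 g1, g3, g5⟩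
    · rintro ⟨g1, g3, g5⟩
      have := abs_le.1 (hV x g1)
      exact ⟨⟨cube_iff.1 g1, ⟨by omega, by omega⟩, g3, trivial⟩, g5⟩
  rw [e1 (fun z => z ∈ S)] at h2
  have e2 : ∀ j : ℕ, {x ∈ PointsS s A l c (fun _ => -(N : ℤ) - 1) (fun _ => (N : ℤ)) (-V - 1) V Set.univ |
      Val A l c x ≡ (j : ℤ) [ZMOD k]} =
      {x : Fin n → ℤ | (∀ i, |x i| ≤ N) ∧ 0 < s * Val A l c x ∧ Val A l c x ≡ (j : ℤ) [ZMOD k]} :=
    fun j => e1 (fun z => z ≡ (j : ℤ) [ZMOD k])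
  simp only [e2] at h2
  refine h2.trans ?_
  calc ε / 2 ^ n * ((N + 1 : ℕ) : ℝ) ^ n ≤ ε / 2 ^ n * (2 * N) ^ n := by
        gcongr
        push_cast; linarith
    _ = ε * (N : ℝ) ^ n := by rw [mul_pow]; field_simp

/-- a polynomial whose quadratic part takes a value of sign `s` has this sign at a positive proportion of the points -/
theorem pos_prop_s {s : ℤ} {n : ℕ} (A : Fin n → Fin n → ℤ) (l : Fin n → ℤ) (c : ℤ) {x₀ : Fin n → ℤ}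
    (h0 : 0 < s * ∑ i, ∑ j, A i j * x₀ i * x₀ j) : ∃ κ : ℝ, 0 < κ ∧ ∀ᶠ N : ℕ in atTop,
      κ * (N : ℝ) ^ n ≤ {x : Fin n → ℤ | (∀ i, |x i| ≤ N) ∧ 0 < s * Val A l c x}.ncard := by
  have h1 : 0 < ∑ i, ∑ j, (s * A i j) * x₀ i * x₀ j := by
    rw [mul_sum] at h0
    simp_rw [mul_sum] at h0
    refine lt_of_lt_of_eq h0 (sum_congr rfl fun i _ => sum_congr rfl fun j _ => by ring)
  obtain ⟨κ, hκ, h2⟩ := pos_prop (fun i j => s * A i j) (fun i => s * l i) (s * c) h1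
  refine ⟨κ, hκ, ?_⟩
  simp only [val_smul] at h2
  exact h2

/-- the same in a residue class -/
theorem class_lower {s k : ℤ} (hk : k ≠ 0) {n : ℕ} (A : Fin n → Fin n → ℤ) (l : Fin n → ℤ) (c : ℤ) {x₀ : Fin n → ℤ}
    (h0 : 0 < s * ∑ i, ∑ j, A i j * x₀ i * x₀ j) (r : Fin n → ℤ) : ∃ κ : ℝ, 0 < κ ∧ ∀ᶠ N : ℕ in atTop,
      κ * (N : ℝ) ^ n ≤ {x : Fin n → ℤ | (∀ i, |x i| ≤ N) ∧ 0 < s * Val A l c x ∧ ∀ i, x i ≡ r i [ZMOD k]}.ncard := by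
  set D : ℕ := k.natAbs with hD
  have hD1 : 1 ≤ D := by omega
  have hD0 : (0 : ℤ) < D := by exact_mod_cast hD1
  have hDr : (1 : ℝ) ≤ D := by exact_mod_cast hD1
  have hmodk : ∀ a b : ℤ, a ≡ b [ZMOD ((k.natAbs : ℕ) : ℤ)] ↔ a ≡ b [ZMOD k] := by
    intro a b
    rw [Int.modEq_iff_dvd, Int.modEq_iff_dvd, Int.natAbs_dvd]
  have h0' : 0 < s * ∑ i, ∑ j, ((D : ℤ) ^ 2 * A i j) * x₀ i * x₀ j := by
    have e : ∑ i, ∑ j, ((D : ℤ) ^ 2 * A i j) * x₀ i * x₀ j = (D : ℤ) ^ 2 * ∑ i, ∑ j, A i j * x₀ i * x₀ j := by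
      simp_rw [mul_sum]
      exact sum_congr rfl fun i _ => sum_congr rfl fun j _ => by ring
    rw [e]
    have : s * ((D : ℤ) ^ 2 * ∑ i, ∑ j, A i j * x₀ i * x₀ j) = (D : ℤ) ^ 2 * (s * ∑ i, ∑ j, A i j * x₀ i * x₀ j) := by ring
    rw [this]
    positivity
  obtain ⟨κ, hκ, h1⟩ := pos_prop_s (fun i j => (D : ℤ) ^ 2 * A i j)
    (fun j => (D : ℤ) * (∑ i, Sy A i j * r i + l j)) (Pol A l c r) h0'
  obtain ⟨M₀, hM₀⟩ := eventually_atTop.1 h1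
  obtain ⟨X, hX⟩ : ∃ X : ℕ, ∀ i, |r i| ≤ (X : ℤ) := by
    refine ⟨∑ i, (r i).natAbs, fun i => ?_⟩
    rw [Int.abs_eq_natAbs]
    have := single_le_sum (f := fun i => (r i).natAbs) (fun _ _ => Nat.zero_le _) (mem_univ i)
    exact_mod_cast this
  refine ⟨κ / (4 * D) ^ n, by positivity, ?_⟩
  filter_upwards [eventually_ge_atTop (2 * D * (M₀ + 1) + 2 * X + 4 * D)] with N hN
  set M : ℕ := N / (2 * D) with hM
  have hM1 : M₀ ≤ M := by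
    rw [hM, Nat.le_div_iff_mul_le (by omega)]
    nlinarith
  have hM2 : M * (2 * D) ≤ N := Nat.div_mul_le_self _ _
  have hM3 : N < (M + 1) * (2 * D) := by
    have := Nat.lt_mul_div_succ N (show 0 < 2 * D by omega)
    rw [← hM] at this
    linarith
  have hM4 : N ≤ 4 * D * M := by nlinarith
  have h2 := hM₀ M hM1
  have hsub : (fun y : Fin n → ℤ => fun i => r i + (D : ℤ) * y i) ''
      {y : Fin n → ℤ | (∀ i, |y i| ≤ M) ∧ 0 < s * Val (fun i j => (D : ℤ) ^ 2 * A i j)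
        (fun j => (D : ℤ) * (∑ i, Sy A i j * r i + l j)) (Pol A l c r) y} ⊆
      {x : Fin n → ℤ | (∀ i, |x i| ≤ N) ∧ 0 < s * Val A l c x ∧ ∀ i, x i ≡ r i [ZMOD k]} := by
    rintro x ⟨y, ⟨g1, g2⟩, rfl⟩
    refine ⟨fun i => ?_, ?_, fun i => ?_⟩
    · refine (abs_add_le _ _).trans ?_
      rw [abs_mul, abs_of_nonneg (by omega : (0 : ℤ) ≤ D)]
      have c1 := mul_le_mul_of_nonneg_left (g1 i) (by omega : (0 : ℤ) ≤ D)
      have c2 := hX i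
      have c3 : (M : ℤ) * (2 * D) ≤ N := by exact_mod_cast hM2
      have c4 : 2 * (X : ℤ) ≤ N := by exact_mod_cast (by omega : 2 * X ≤ N)
      linarith
    · have e := pol_sub A l c D r y
      have e' : Val A l c (fun i => r i + (D : ℤ) * y i) = Val (fun i j => (D : ℤ) ^ 2 * A i j)
        (fun j => (D : ℤ) * (∑ i, Sy A i j * r i + l j)) (Pol A l c r) y := e
      rw [e']
      exact g2
    · rw [← hmodk]
      show r i + (D : ℤ) * y i ≡ r i [ZMOD D]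
      unfold Int.ModEq
      rw [Int.add_mul_emod_self_left]
  have hinj : Function.Injective (fun y : Fin n → ℤ => fun i => r i + (D : ℤ) * y i) := by
    intro y y' hh
    ext i
    have h5 : r i + (D : ℤ) * y i = r i + (D : ℤ) * y' i := congrFun hh i
    have h6 : (D : ℤ) * y i = D * y' i := by linarith
    exact mul_left_cancel₀ hD0.ne' h6
  have hfin : {x : Fin n → ℤ | (∀ i, |x i| ≤ N) ∧ 0 < s * Val A l c x ∧ ∀ i, x i ≡ r i [ZMOD k]}.Finite :=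
    (cube_finite n N).subset fun x hx => hx.1
  have h3 := Set.ncard_le_ncard hsub hfin
  rw [Set.ncard_image_of_injective _ hinj] at h3
  have h4 : (({y : Fin n → ℤ | (∀ i, |y i| ≤ M) ∧ 0 < s * Val (fun i j => (D : ℤ) ^ 2 * A i j)
        (fun j => (D : ℤ) * (∑ i, Sy A i j * r i + l j)) (Pol A l c r) y}.ncard : ℕ) : ℝ) ≤
      ({x : Fin n → ℤ | (∀ i, |x i| ≤ N) ∧ 0 < s * Val A l c x ∧ ∀ i, x i ≡ r i [ZMOD k]}.ncard : ℝ) := by
    exact_mod_cast h3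
  refine le_trans ?_ (h2.trans h4)
  rw [div_mul_eq_mul_div, div_le_iff₀ (by positivity), mul_assoc, ← mul_pow]
  apply mul_le_mul_of_nonneg_left _ hκ.le
  apply pow_le_pow_left₀ (Nat.cast_nonneg _)
  have : (N : ℝ) ≤ 4 * D * M := by exact_mod_cast hM4
  linarith

/-- POSITIVE PROPORTION -/
theorem lower_k {s k : ℤ} (hk : k ≠ 0) {S : Set ℤ} {δ : ℤ → ℝ} (hδ : ∀ a b : ℤ, a ≡ b [ZMOD k] → δ a = δ b)
    (h : LawS s k S δ) {n : ℕ} {A : Fin n → Fin n → ℤ} (hA : RankTwo A) (l : Fin n → ℤ) (c : ℤ) {x₀ : Fin n → ℤ}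
    (h0 : 0 < s * ∑ i, ∑ j, A i j * x₀ i * x₀ j) {r : Fin n → ℤ} (hr : 0 < δ (Val A l c r)) :
    ∃ κ : ℝ, 0 < κ ∧ ∀ᶠ N : ℕ in atTop,
      κ * (N : ℝ) ^ n ≤ {x : Fin n → ℤ | (∀ i, |x i| ≤ N) ∧ 0 < s * Val A l c x ∧ Val A l c x ∈ S}.ncard := by
  obtain ⟨κ, hκ, h1⟩ := class_lower hk A l c h0 r
  obtain ⟨L, hL0, hL1, hL2⟩ := coef_bound l c
  set f := δ (Val A l c r) with hf
  obtain ⟨R₀, h2⟩ := law_class hk hδ h hA hL0 (show 0 < f * κ / 2 / 2 ^ n by positivity)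
  refine ⟨f * κ / 2, by positivity, ?_⟩
  filter_upwards [h1, eventually_ge_atTop (R₀ + 1)] with N hN1 hN
  have hN1' : (1 : ℝ) ≤ N := by exact_mod_cast (by omega : 1 ≤ N)
  obtain ⟨V, hV0, hV⟩ := val_bd A l c N
  have h3 := h2 (N + 1) (by omega) l c (fun _ => -(N : ℤ) - 1) (fun _ => (N : ℤ)) (fun i => by
      push_cast
      have := hL1 i
      nlinarith) (by
      push_cast
      have : (1 : ℝ) ≤ ((N : ℝ) + 1) ^ 2 := by nlinarith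
      nlinarith) (fun i => by
      constructor
      · rw [abs_le]; push_cast; constructor <;> omega
      · rw [abs_le]; push_cast; constructor <;> omega) (-V - 1) V r
  have e1 : PointsS s A l c (fun _ => -(N : ℤ) - 1) (fun _ => (N : ℤ)) (-V - 1) V {x | ∀ i, x i ≡ r i [ZMOD k]} =
      {x : Fin n → ℤ | (∀ i, |x i| ≤ N) ∧ 0 < s * Val A l c x ∧ ∀ i, x i ≡ r i [ZMOD k]} := by
    ext x
    constructor
    · rintro ⟨g1, g2, g3, g4⟩; exact ⟨cube_iff.2 g1, g3, g4⟩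
    · rintro ⟨g1, g3, g5⟩
      have := abs_le.1 (hV x g1)
      exact ⟨cube_iff.1 g1, ⟨by omega, by omega⟩, g3, g5⟩
  rw [e1] at h3
  have hsub : {x ∈ {x : Fin n → ℤ | (∀ i, |x i| ≤ N) ∧ 0 < s * Val A l c x ∧ ∀ i, x i ≡ r i [ZMOD k]} |
      Val A l c x ∈ S} ⊆ {x : Fin n → ℤ | (∀ i, |x i| ≤ N) ∧ 0 < s * Val A l c x ∧ Val A l c x ∈ S} := by
    rintro x ⟨⟨g1, g2, -⟩, g3⟩; exact ⟨g1, g2, g3⟩
  have hfin : {x : Fin n → ℤ | (∀ i, |x i| ≤ N) ∧ 0 < s * Val A l c x ∧ Val A l c x ∈ S}.Finite :=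
    (cube_finite n N).subset fun x hx => hx.1
  have h4 : (({x ∈ {x : Fin n → ℤ | (∀ i, |x i| ≤ N) ∧ 0 < s * Val A l c x ∧ ∀ i, x i ≡ r i [ZMOD k]} |
      Val A l c x ∈ S}.ncard : ℕ) : ℝ) ≤
      ({x : Fin n → ℤ | (∀ i, |x i| ≤ N) ∧ 0 < s * Val A l c x ∧ Val A l c x ∈ S}.ncard : ℝ) := by
    exact_mod_cast Set.ncard_le_ncard hsub hfin
  have h5 : f * κ / 2 / 2 ^ n * ((N + 1 : ℕ) : ℝ) ^ n ≤ f * κ / 2 * N ^ n := by
    calc f * κ / 2 / 2 ^ n * ((N + 1 : ℕ) : ℝ) ^ n ≤ f * κ / 2 / 2 ^ n * (2 * N) ^ n := by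
          gcongr
          push_cast; linarith
      _ = f * κ / 2 * (N : ℝ) ^ n := by rw [mul_pow]; field_simp
  have h6 : f * (κ * (N : ℝ) ^ n) ≤ f *
      ({x : Fin n → ℤ | (∀ i, |x i| ≤ N) ∧ 0 < s * Val A l c x ∧ ∀ i, x i ≡ r i [ZMOD k]}.ncard : ℝ) :=
    mul_le_mul_of_nonneg_left hN1 hr.le
  have h7 := (abs_le.1 h3).1
  linarith

/-- REPRESENTATIONS -/
theorem represent_k {s k : ℤ} (hs : s = 1 ∨ s = -1) (hk : k ≠ 0) {S : Set ℤ} {δ : ℤ → ℝ}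
    (hδ : ∀ a b : ℤ, a ≡ b [ZMOD k] → δ a = δ b) (h : LawS s k S δ) {f : ℝ} (hf : 0 < f) {α β γ : ℤ}
    (hdisc : β ^ 2 ≠ 4 * α * γ) :
    ∃ κ : ℝ, 0 < κ ∧ ∃ n₀ : ℕ, ∀ n : ℕ, n₀ ≤ n → (∃ a b : ℤ, δ (s * n - (α * a ^ 2 + β * a * b + γ * b ^ 2)) = f) →
      κ * n ≤ {p : ℤ × ℤ | (0 < p.1 ∧ p.1 ^ 2 ≤ n) ∧ (0 < p.2 ∧ p.2 ^ 2 ≤ n) ∧
        ∃ t ∈ S, 0 < s * t ∧ s * n = (α * p.1 ^ 2 + β * p.1 * p.2 + γ * p.2 ^ 2) + t}.ncard := by
  have hss : s * s = 1 := by rcases hs with rfl | rfl <;> norm_num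
  have hsabs : |s| = 1 := by rcases hs with rfl | rfl <;> norm_num
  set K : ℕ := k.natAbs with hK
  have hK1 : 1 ≤ K := by omega
  have hK0 : (0 : ℤ) < K := by exact_mod_cast hK1
  have hKr : (1 : ℝ) ≤ K := by exact_mod_cast hK1
  have hmodk : ∀ a b : ℤ, a ≡ b [ZMOD ((k.natAbs : ℕ) : ℤ)] ↔ a ≡ b [ZMOD k] := by
    intro a b
    rw [Int.modEq_iff_dvd, Int.modEq_iff_dvd, Int.natAbs_dvd]
  set D : ℕ := α.natAbs + β.natAbs + γ.natAbs + 1 with hD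
  have hD1 : 1 ≤ D := by omega
  have hDr : (1 : ℝ) ≤ D := by exact_mod_cast hD1
  set ε : ℝ := f / (128 * D ^ 2 * K ^ 2) with hε
  have hε0 : 0 < ε := by positivity
  obtain ⟨R₀, h'⟩ := law_class hk hδ h (A := Bin (-α) (-β) (-γ)) (bin_rank (by intro h1; apply hdisc; linear_combination h1))
    (B := 4) (by norm_num) hε0
  refine ⟨ε / 4, by positivity, (R₀ + 4 * D * (K + 1)) ^ 2, ?_⟩
  rintro n hn ⟨a₁, b₁, hab₁⟩
  set R := Nat.sqrt n with hR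
  have hR1 : R₀ + 4 * D * (K + 1) ≤ R := Nat.le_sqrt'.2 hn
  have hRn : R ^ 2 ≤ n := Nat.sqrt_le' n
  have hRn' : n < (R + 1) ^ 2 := Nat.lt_succ_sqrt' n
  have hDK : 4 * D * (K + 1) ≥ 8 := by nlinarith
  have hn4 : n ≤ 4 * R ^ 2 := by nlinarith
  set m := R / (2 * D) with hm
  have hmR : m * (2 * D) ≤ R := Nat.div_mul_le_self _ _
  have hmR' : R < (m + 1) * (2 * D) := by
    have := Nat.lt_mul_div_succ R (show 0 < 2 * D by omega)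
    rw [← hm] at this
    linarith
  have hmK : 2 * (K + 1) ≤ m + 1 := by
    by_contra hcon
    push Not at hcon
    have h9 : m + 1 ≤ 2 * (K + 1) := by omega
    have h10 := Nat.mul_le_mul_right (2 * D) h9
    nlinarith
  have hm4 : R ≤ 4 * D * m := by nlinarith
  have hmle : m ≤ R := by nlinarith
  set m₁ := m / K with hm₁
  have hm1a : m₁ * K ≤ m := Nat.div_mul_le_self _ _
  have hm1b : m < (m₁ + 1) * K := by
    have := Nat.lt_mul_div_succ m (show 0 < K by omega)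
    rw [← hm₁] at this
    linarith
  have hm1c : m ≤ 2 * K * m₁ := by
    have h11 : 1 ≤ m₁ := by
      rw [hm₁, Nat.le_div_iff_mul_le (by omega)]
      omega
    nlinarith
  have hR8 : R ≤ 8 * D * K * m₁ := by
    calc R ≤ 4 * D * m := hm4
      _ ≤ 4 * D * (2 * K * m₁) := Nat.mul_le_mul_left _ hm1c
      _ = 8 * D * K * m₁ := by ring
  set r : Fin 2 → ℤ := ![a₁, b₁] with hr
  have h1 := h' R (by omega) 0 (s * n) (fun _ => 0) (fun _ => (m : ℤ)) (by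
    intro i; simp) (by
    have : |((s * (n : ℤ) : ℤ) : ℝ)| = n := by
      rw [← Int.cast_abs, abs_mul, hsabs, one_mul]; simp
    rw [this]
    exact_mod_cast hn4) (by
    intro i
    refine ⟨by simp, ?_⟩
    rw [abs_of_nonneg (by positivity)]
    exact_mod_cast hmle) (-(2 * n) - 1) (2 * n) r
  have hval : ∀ x : Fin 2 → ℤ, Val (Bin (-α) (-β) (-γ)) 0 (s * n) x =
      s * n - (α * x 0 ^ 2 + β * x 0 * x 1 + γ * x 1 ^ 2) := by
    intro x; rw [bin_val]; ring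
  have hvr : δ (Val (Bin (-α) (-β) (-γ)) 0 (s * n) r) = f := by
    rw [hval, hr]
    simpa using hab₁
  rw [hvr] at h1
  have hpos : ∀ x : Fin 2 → ℤ, (∀ i, (0 : ℤ) < x i ∧ x i ≤ m) → 0 < s * Val (Bin (-α) (-β) (-γ)) 0 (s * n) x ∧
      |Val (Bin (-α) (-β) (-γ)) 0 (s * n) x| ≤ 2 * n := by
    intro x hx
    rw [hval]
    have h0 := hx 0
    have h1 := hx 1
    have hb : |α * x 0 ^ 2 + β * x 0 * x 1 + γ * x 1 ^ 2| ≤ D * m ^ 2 := by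
      have a0 : |x 0| ≤ m := by rw [abs_le]; omega
      have a1 : |x 1| ≤ m := by rw [abs_le]; omega
      have t1 : |α * x 0 ^ 2| ≤ |α| * m ^ 2 := by
        rw [abs_mul, abs_pow]; gcongr
      have t2 : |β * x 0 * x 1| ≤ |β| * m ^ 2 := by
        rw [abs_mul, abs_mul, sq, mul_assoc]; gcongr
      have t3 : |γ * x 1 ^ 2| ≤ |γ| * m ^ 2 := by
        rw [abs_mul, abs_pow]; gcongr
      have t4 := abs_add_three (α * x 0 ^ 2) (β * x 0 * x 1) (γ * x 1 ^ 2)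
      have hDz : (D : ℤ) = |α| + |β| + |γ| + 1 := by rw [hD]; push_cast; ring
      have t5 : (0 : ℤ) ≤ (m : ℤ) ^ 2 := by positivity
      rw [hDz]
      have t6 : (|α| + |β| + |γ| + 1) * (m : ℤ) ^ 2 = |α| * m ^ 2 + |β| * m ^ 2 + |γ| * m ^ 2 + m ^ 2 := by ring
      rw [t6]
      linarith
    have hDm : D * m ^ 2 < n := by
      have q1 : (m * (2 * D)) ^ 2 ≤ R ^ 2 := Nat.pow_le_pow_left hmR 2
      have hR0 : 0 < R := by omega
      have q2 : 0 < R ^ 2 := by positivity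
      nlinarith
    have hDm' : (D : ℤ) * (m : ℤ) ^ 2 < n := by exact_mod_cast hDm
    set Y := α * x 0 ^ 2 + β * x 0 * x 1 + γ * x 1 ^ 2 with hY
    have hb' := abs_le.1 hb
    constructor
    · have e : s * (s * n - Y) = n - s * Y := by
        have : s * (s * n - Y) = (s * s) * n - s * Y := by ring
        rw [this, hss, one_mul]
      rw [e]
      rcases hs with rfl | rfl
      · linarith [hb'.2]
      · linarith [hb'.1]
    · rw [abs_le]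
      rcases hs with rfl | rfl
      · constructor <;> linarith [hb'.1, hb'.2]
      · constructor <;> linarith [hb'.1, hb'.2]
  -- the points of the class
  have hr' : ∀ i, ∃ z : ℤ, 0 < z ∧ z ≤ K ∧ z ≡ r i [ZMOD k] := by
    intro i
    refine ⟨(r i - 1) % K + 1, ?_, ?_, ?_⟩
    · have := Int.emod_nonneg (r i - 1) hK0.ne'; omega
    · have := Int.emod_lt_of_pos (r i - 1) hK0; omega
    · rw [← hmodk]
      have h12 : (r i - 1) % K ≡ r i - 1 [ZMOD K] := Int.mod_modEq _ _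
      have h13 := h12.add_right 1
      rwa [sub_add_cancel] at h13
  choose z hz1 hz2 hz3 using hr'
  have hsub1 : (fun y : Fin 2 → ℤ => fun i => z i + (K : ℤ) * (y i - 1)) ''
      ((Fintype.piFinset (fun _ : Fin 2 => Ioc (0 : ℤ) m₁) : Finset (Fin 2 → ℤ)) : Set (Fin 2 → ℤ)) ⊆
      PointsS s (Bin (-α) (-β) (-γ)) 0 (s * n) (fun _ : Fin 2 => (0 : ℤ)) (fun _ => (m : ℤ)) (-(2 * n) - 1) (2 * n)
        {x | ∀ i, x i ≡ r i [ZMOD k]} := by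
    rintro x ⟨y, hy, rfl⟩
    rw [mem_coe, Fintype.mem_piFinset] at hy
    have hbox : ∀ i, (0 : ℤ) < z i + (K : ℤ) * (y i - 1) ∧ z i + (K : ℤ) * (y i - 1) ≤ m := by
      intro i
      have h14 := mem_Ioc.1 (hy i)
      have h15 : (m₁ : ℤ) * K ≤ m := by exact_mod_cast hm1a
      have h16 := hz1 i
      have h17 := hz2 i
      constructor
      · nlinarith
      · nlinarith
    obtain ⟨g2, g3⟩ := hpos _ hbox
    have g4 := abs_le.1 g3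
    refine ⟨hbox, ⟨lt_of_lt_of_le (by omega) g4.1, g4.2⟩, g2, fun i => ?_⟩
    rw [← hmodk]
    show z i + (K : ℤ) * (y i - 1) ≡ r i [ZMOD K]
    have h18 : z i + (K : ℤ) * (y i - 1) ≡ z i [ZMOD K] := by
      unfold Int.ModEq
      rw [Int.add_mul_emod_self_left]
    exact h18.trans ((hmodk _ _).2 (hz3 i))
  have hinj : Function.Injective (fun y : Fin 2 → ℤ => fun i => z i + (K : ℤ) * (y i - 1)) := by
    intro y y' hh
    ext i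
    have h5 : z i + (K : ℤ) * (y i - 1) = z i + (K : ℤ) * (y' i - 1) := congrFun hh i
    have h6 : (K : ℤ) * (y i - 1) = K * (y' i - 1) := by linarith
    have := mul_left_cancel₀ hK0.ne' h6
    linarith
  have hfinP : (PointsS s (Bin (-α) (-β) (-γ)) 0 (s * n) (fun _ : Fin 2 => (0 : ℤ)) (fun _ => (m : ℤ)) (-(2 * n) - 1) (2 * n)
        {x | ∀ i, x i ≡ r i [ZMOD k]}).Finite := by
    apply (cube_finite 2 m).subset
    rintro x ⟨g1, -⟩ i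
    rw [abs_le]
    have : (0 : ℤ) < x i ∧ x i ≤ m := g1 i
    constructor <;> omega
  have hcard : m₁ ^ 2 ≤ (PointsS s (Bin (-α) (-β) (-γ)) 0 (s * n) (fun _ : Fin 2 => (0 : ℤ)) (fun _ => (m : ℤ))
      (-(2 * n) - 1) (2 * n) {x | ∀ i, x i ≡ r i [ZMOD k]}).ncard := by
    have h19 := Set.ncard_le_ncard hsub1 hfinP
    rw [Set.ncard_image_of_injective _ hinj, Set.ncard_coe_finset, Fintype.card_piFinset] at h19
    simpa using h19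
  rw [ncard_pair (fun x y => (0 < x ∧ x ^ 2 ≤ n) ∧ (0 < y ∧ y ^ 2 ≤ n) ∧
    ∃ t ∈ S, 0 < s * t ∧ s * (n : ℤ) = (α * x ^ 2 + β * x * y + γ * y ^ 2) + t)]
  have hsub : {x ∈ PointsS s (Bin (-α) (-β) (-γ)) 0 (s * n) (fun _ : Fin 2 => (0 : ℤ)) (fun _ => (m : ℤ)) (-(2 * n) - 1)
      (2 * n) {x | ∀ i, x i ≡ r i [ZMOD k]} | Val (Bin (-α) (-β) (-γ)) 0 (s * n) x ∈ S} ⊆
      {x : Fin 2 → ℤ | (0 < x 0 ∧ x 0 ^ 2 ≤ n) ∧ (0 < x 1 ∧ x 1 ^ 2 ≤ n) ∧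
      ∃ t ∈ S, 0 < s * t ∧ s * (n : ℤ) = (α * x 0 ^ 2 + β * x 0 * x 1 + γ * x 1 ^ 2) + t} := by
    rintro x ⟨⟨q1, q2, q3, -⟩, q4⟩
    have hsq : ∀ t : ℤ, 0 < t → t ≤ m → t ^ 2 ≤ n := by
      intro t ht0 ht
      have p1 : t ^ 2 ≤ (m : ℤ) ^ 2 := pow_le_pow_left₀ ht0.le ht 2
      have p2 : m ^ 2 ≤ n := (Nat.pow_le_pow_left hmle 2).trans hRn
      have p3 : (m : ℤ) ^ 2 ≤ n := by exact_mod_cast p2
      linarith
    refine ⟨⟨(q1 0).1, hsq _ (q1 0).1 (q1 0).2⟩, ⟨(q1 1).1, hsq _ (q1 1).1 (q1 1).2⟩,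
      Val (Bin (-α) (-β) (-γ)) 0 (s * n) x, q4, q3, ?_⟩
    rw [hval]; ring
  have hfin : {x : Fin 2 → ℤ | (0 < x 0 ∧ x 0 ^ 2 ≤ n) ∧ (0 < x 1 ∧ x 1 ^ 2 ≤ n) ∧
      ∃ t ∈ S, 0 < s * t ∧ s * (n : ℤ) = (α * x 0 ^ 2 + β * x 0 * x 1 + γ * x 1 ^ 2) + t}.Finite := by
    apply (cube_finite 2 n).subset
    rintro x ⟨⟨q1, q2⟩, ⟨q3, q4⟩, -⟩ i
    fin_cases i
    · simp only [Fin.zero_eta]; rw [abs_of_pos q1]; nlinarith
    · simp only [Fin.mk_one]; rw [abs_of_pos q3]; nlinarith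
  have h2r : ({x ∈ PointsS s (Bin (-α) (-β) (-γ)) 0 (s * n) (fun _ : Fin 2 => (0 : ℤ)) (fun _ => (m : ℤ)) (-(2 * n) - 1)
      (2 * n) {x | ∀ i, x i ≡ r i [ZMOD k]} | Val (Bin (-α) (-β) (-γ)) 0 (s * n) x ∈ S}.ncard : ℝ) ≤
      ({x : Fin 2 → ℤ | (0 < x 0 ∧ x 0 ^ 2 ≤ n) ∧ (0 < x 1 ∧ x 1 ^ 2 ≤ n) ∧
      ∃ t ∈ S, 0 < s * t ∧ s * (n : ℤ) = (α * x 0 ^ 2 + β * x 0 * x 1 + γ * x 1 ^ 2) + t}.ncard : ℝ) := by
    exact_mod_cast Set.ncard_le_ncard hsub hfin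
  refine le_trans ?_ h2r
  have h3 := (abs_le.1 h1).1
  have hcr : (m₁ : ℝ) ^ 2 ≤ ((PointsS s (Bin (-α) (-β) (-γ)) 0 (s * n) (fun _ : Fin 2 => (0 : ℤ)) (fun _ => (m : ℤ))
      (-(2 * n) - 1) (2 * n) {x | ∀ i, x i ≡ r i [ZMOD k]}).ncard : ℝ) := by exact_mod_cast hcard
  have h4 : f * (m₁ : ℝ) ^ 2 ≤ f * ((PointsS s (Bin (-α) (-β) (-γ)) 0 (s * n) (fun _ : Fin 2 => (0 : ℤ)) (fun _ => (m : ℤ))
      (-(2 * n) - 1) (2 * n) {x | ∀ i, x i ≡ r i [ZMOD k]}).ncard : ℝ) := mul_le_mul_of_nonneg_left hcr hf.le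
  have h5 : (R : ℝ) ^ 2 / (64 * D ^ 2 * K ^ 2) ≤ m₁ ^ 2 := by
    rw [div_le_iff₀ (by positivity)]
    have hmr : (R : ℝ) ≤ 8 * D * K * m₁ := by exact_mod_cast hR8
    calc (R : ℝ) ^ 2 ≤ (8 * D * K * m₁) ^ 2 := pow_le_pow_left₀ (by positivity) hmr 2
      _ = _ := by ring
  have h6 : f * ((R : ℝ) ^ 2 / (64 * D ^ 2 * K ^ 2)) ≤ f * m₁ ^ 2 := mul_le_mul_of_nonneg_left h5 hf.le
  have h7 : f * ((R : ℝ) ^ 2 / (64 * D ^ 2 * K ^ 2)) = 2 * ε * R ^ 2 := by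
    rw [hε]; field_simp; ring
  have h8 : (n : ℝ) ≤ 4 * R ^ 2 := by exact_mod_cast hn4
  have h9 : ε / 4 * (n : ℝ) ≤ ε / 4 * (4 * R ^ 2) := by gcongr
  linarith

end Pool.Agent.Run7.h145.QK
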