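import Pool.Agent.Run7.h145.QK.A

/-! Invariant sets of the maps `T_{3,d}` along quadratic polynomials: one residue class modulo `d`. -/

set_option autoImplicit false

namespace Pool.Agent.Run7.h145.QK

open Finset Pool.Agent.H499R2.CO Pool.Agent.H499R2.ND Filter Topology Pool.Agent.Run7.h145.QP
  Pool.Agent.Run7.h145.QL
open scoped Classical

theorem iter_mem_d {d : ℤ} {S : Set ℤ} (hS : Inv d S) (t : ℕ) : ∀ x : ℤ, (Tz d)^[t] x ∈ S ↔ x ∈ S := by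
  induction t with
  | zero => intro x; simp
  | succ t ih =>
    intro x
    rw [Function.iterate_succ_apply, ih]
    exact (hS x).symm

/-- the balanced indicator function of a set -/
noncomputable def bS (S : Set ℤ) (a : ℝ) (z : ℤ) : ℝ := (if z ∈ S then 1 else 0) - a

theorem bS_le {S : Set ℤ} {a : ℝ} (h : 0 ≤ a ∧ a ≤ 1) (z : ℤ) : |bS S a z| ≤ 1 := by
  unfold bS
  rw [abs_le]
  split_ifs <;> constructor <;> linarith [h.1, h.2]

theorem bS_mk {d : ℤ} {S : Set ℤ} (hS : Inv d S) {a : ℝ} (h : 0 ≤ a ∧ a ≤ 1) : Mk d (bS S a) := by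
  refine ⟨bS_le h, fun t x y hxy => ?_⟩
  have h1 : x ∈ S ↔ y ∈ S := by rw [← iter_mem_d hS t x, hxy, iter_mem_d hS t y]
  unfold bS
  by_cases hx : x ∈ S
  · rw [if_pos hx, if_pos (h1.1 hx)]
  · rw [if_neg hx, if_neg (fun hy => hx (h1.2 hy))]

theorem bS_sum (S : Set ℤ) (a : ℝ) (D : ℕ) (e : ℤ) (n : ℕ) :
    ∑ m ∈ Icc 1 n, bS S a ((D : ℤ) * ((m : ℕ) : ℤ) + e) = Pool.Agent.H499R2.ND.cnt (fun m : ℕ => (D : ℤ) * m + e ∈ S) n - a * n := by
  rw [cnt_eq, card_filter]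
  push_cast
  unfold bS
  rw [sum_sub_distrib, sum_const, Nat.card_Icc, Nat.add_sub_cancel, nsmul_eq_mul, mul_comm]

theorem abs_ediv_le (n : ℤ) (D : ℕ) : |n / (D : ℤ)| ≤ |n| := by
  have h := Int.natAbs_ediv_le_natAbs n (D : ℤ)
  rw [Int.abs_eq_natAbs, Int.abs_eq_natAbs]
  exact_mod_cast h

variable {k : ℕ}

/-- one class, one residue -/
theorem one_class_e {d : ℤ} (hd : d % 2 = 1) {D : ℕ} {σ : ℤ} (hσ : σ = 1 ∨ σ = -1) (hD : (D : ℤ) = σ * d)
    {S : Set ℤ} (hS : Inv d S) {δ : ℤ → ℝ} (h01 : ∀ e, 0 ≤ δ e ∧ δ e ≤ 1) {e : ℤ} (he : 0 ≤ e ∧ e < D)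
    (hdn : Dn (fun n : ℕ => (D : ℤ) * n + e ∈ S) (δ e)) {A : Fin k → Fin k → ℤ} (hA : Mi A) {B ε : ℝ} (hB : 0 < B)
    (hε : 0 < ε) : ∃ R₀ : ℕ, ∀ R : ℕ, R₀ ≤ R → ∀ (l : Fin k → ℤ) (c : ℤ) (a b : Fin k → ℤ), Bnd B R l c a b →
      ∀ u v : ℤ,
      |(#{y ∈ Fintype.piFinset (fun i => Ioc (a i) (b i)) | ((u < D * Pol A l c y + e ∧ D * Pol A l c y + e ≤ v) ∧
          0 < D * Pol A l c y + e) ∧ D * Pol A l c y + e ∈ S} : ℝ) -
        δ e * #{y ∈ Fintype.piFinset (fun i => Ioc (a i) (b i)) | (u < D * Pol A l c y + e ∧ D * Pol A l c y + e ≤ v) ∧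
          0 < D * Pol A l c y + e}| ≤ ε * R ^ k := by
  have hD0 : (0 : ℤ) < D := by rcases hσ with rfl | rfl <;> omega
  obtain ⟨p, q, r, t, hpq, hrt, hdet⟩ := hA
  obtain ⟨r', hpr⟩ : ∃ r', Sy A p r' ≠ 0 := by
    by_contra h
    push Not at h
    apply hdet
    rw [h r, h t]; ring
  obtain ⟨E, -, hE⟩ := main_abs (Fd d D e) A (few_k hd hσ hD e A hpr) hpq hrt hdet hB
  obtain ⟨μ, hμ, h1⟩ := hE (ε / 2) (by positivity)
  obtain ⟨R₁, h2⟩ := h1 0
  obtain ⟨η, hη, R₂, h3⟩ := few_small A hpq hrt hdet hB (show 0 < ε / 2 by positivity)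
  obtain ⟨N₀, h4⟩ := eventually_atTop.1 (dn_unif hdn hμ E)
  refine ⟨R₁ + R₂ + N₀ + 1, fun R hR l c a b hb u v => ?_⟩
  have hR1 : 1 ≤ R := by omega
  have hRr : (1 : ℝ) ≤ R := by exact_mod_cast hR1
  obtain ⟨b1, b2, b3, b4⟩ := hb
  set g : ℤ → ℝ := fun m => bS S (δ e) (D * m + e) with hg
  have hgF : g ∈ Fd d D e 0 := ⟨bS S (δ e), bS_mk hS (h01 e), rfl⟩
  have hav : ∀ y : ℕ, y ≤ E * R ^ 2 → |∑ m ∈ Icc 1 y, g ((m : ℕ) : ℤ)| ≤ μ * ((R ^ 2 : ℕ) : ℝ) := by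
    intro y hy
    have h5 := h4 (R ^ 2) (by nlinarith) y hy
    have h6 := bS_sum S (δ e) D e y
    rw [hg]
    simp only
    rw [h6]
    exact h5
  have m1 := h2 R (by omega) g hgF hav l c a b b1 b2 b3 b4 (max ((u - e) / D) 0) ((v - e) / D) (le_max_right _ _)
  have m2 := h3 R (by omega) l c a b b1 b2 b3 b4 0
  rw [Fintype.card_fin] at m1 m2
  set Bx := Fintype.piFinset (fun i => Ioc (a i) (b i)) with hBx
  have e1 : (#{y ∈ Bx | ((u < D * Pol A l c y + e ∧ D * Pol A l c y + e ≤ v) ∧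
          0 < D * Pol A l c y + e) ∧ D * Pol A l c y + e ∈ S} : ℝ) -
        δ e * #{y ∈ Bx | (u < D * Pol A l c y + e ∧ D * Pol A l c y + e ≤ v) ∧ 0 < D * Pol A l c y + e} =
      ∑ y ∈ Bx, (if (u < D * Pol A l c y + e ∧ D * Pol A l c y + e ≤ v) ∧ 0 < D * Pol A l c y + e then
        bS S (δ e) (D * Pol A l c y + e) else 0) := by
    rw [card_filter, card_filter]
    push_cast
    rw [mul_sum, ← sum_sub_distrib]
    apply sum_congr rfl
    intro y _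
    unfold bS
    by_cases g1 : (u < D * Pol A l c y + e ∧ D * Pol A l c y + e ≤ v) ∧ 0 < D * Pol A l c y + e
    · by_cases g2 : D * Pol A l c y + e ∈ S
      · rw [if_pos ⟨g1, g2⟩, if_pos g1, if_pos g1, if_pos g2, mul_one]
      · rw [if_neg (fun h => g2 h.2), if_pos g1, if_pos g1, if_neg g2, mul_one]
    · rw [if_neg (fun h => g1 h.1), if_neg g1, if_neg g1, mul_zero, sub_zero]
  have e2 : |∑ y ∈ Bx, (if (u < D * Pol A l c y + e ∧ D * Pol A l c y + e ≤ v) ∧ 0 < D * Pol A l c y + e then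
        bS S (δ e) (D * Pol A l c y + e) else 0) - ∑ y ∈ Bx, rs (max ((u - e) / D) 0) ((v - e) / D) g (Pol A l c y)| ≤
      #{y ∈ Bx | ((0 : ℤ) : ℝ) - η * R ^ 2 < Pol A l c y ∧ Pol A l c y ≤ 0} := by
    rw [← sum_sub_distrib]
    refine (abs_sum_le_sum_abs _ _).trans ?_
    rw [card_filter]
    push_cast
    apply sum_le_sum
    intro y _
    have hw1 : u < D * Pol A l c y + e ↔ (u - e) / D < Pol A l c y := by
      rw [Int.ediv_lt_iff_lt_mul hD0]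
      constructor <;> intro h <;> nlinarith
    have hw2 : D * Pol A l c y + e ≤ v ↔ Pol A l c y ≤ (v - e) / D := by
      rw [Int.le_ediv_iff_mul_le hD0]
      constructor <;> intro h <;> nlinarith
    by_cases hz : Pol A l c y = 0
    · have hz' : (0 : ℝ) - η * R ^ 2 < Pol A l c y ∧ Pol A l c y ≤ 0 := by
        rw [hz]
        constructor
        · push_cast
          have : 0 < η * (R : ℝ) ^ 2 := by positivity
          linarith
        · exact le_rfl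
      have hrs : rs (max ((u - e) / D) 0) ((v - e) / D) g (Pol A l c y) = 0 := by
        unfold rs
        rw [if_neg]
        rintro ⟨h5, -⟩
        rw [hz, max_lt_iff] at h5
        omega
      rw [hrs, sub_zero, if_pos hz']
      split_ifs
      · exact bS_le (h01 e) _
      · simp
    · have hdiff : (if (u < D * Pol A l c y + e ∧ D * Pol A l c y + e ≤ v) ∧ 0 < D * Pol A l c y + e then
        bS S (δ e) (D * Pol A l c y + e) else 0) = rs (max ((u - e) / D) 0) ((v - e) / D) g (Pol A l c y) := by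
        by_cases hp : 0 < Pol A l c y
        · have hq' : 0 < D * Pol A l c y + e := by nlinarith [he.1]
          unfold rs
          by_cases g1 : u < D * Pol A l c y + e ∧ D * Pol A l c y + e ≤ v
          · rw [if_pos ⟨g1, hq'⟩, if_pos ⟨max_lt (hw1.1 g1.1) hp, hw2.1 g1.2⟩]
          · rw [if_neg (fun h => g1 h.1), if_neg]
            rintro ⟨h5, h6⟩
            exact g1 ⟨hw1.2 (max_lt_iff.1 h5).1, hw2.2 h6⟩
        · have hp' : Pol A l c y ≤ -1 := by omega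
          have hq' : ¬ 0 < D * Pol A l c y + e := by nlinarith [he.2]
          unfold rs
          rw [if_neg (fun h => hq' h.2), if_neg]
          rintro ⟨h5, -⟩
          have := (max_lt_iff.1 h5).2
          omega
      rw [hdiff, sub_self, abs_zero]
      split_ifs <;> norm_num
  rw [e1]
  have e3 : (#{y ∈ Bx | ((0 : ℤ) : ℝ) - η * R ^ 2 < Pol A l c y ∧ Pol A l c y ≤ 0} : ℝ) ≤ ε / 2 * R ^ k := m2
  rw [abs_le] at e2 m1 ⊢
  constructor <;> linarith [e2.1, e2.2, m1.1, m1.2]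

/-- one class, all residues -/
theorem one_class {d : ℤ} (hd : d % 2 = 1) {D : ℕ} {σ : ℤ} (hσ : σ = 1 ∨ σ = -1) (hD : (D : ℤ) = σ * d)
    {S : Set ℤ} (hS : Inv d S) {δ : ℤ → ℝ} (h01 : ∀ e, 0 ≤ δ e ∧ δ e ≤ 1)
    (hdn : ∀ e : ℤ, 0 ≤ e → e < D → Dn (fun n : ℕ => (D : ℤ) * n + e ∈ S) (δ e)) {A : Fin k → Fin k → ℤ} (hA : Mi A)
    {B ε : ℝ} (hB : 0 < B)
    (hε : 0 < ε) : ∃ R₀ : ℕ, ∀ R : ℕ, R₀ ≤ R → ∀ (l : Fin k → ℤ) (c : ℤ) (a b : Fin k → ℤ), Bnd B R l c a b →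
      ∀ u v e : ℤ, 0 ≤ e → e < D →
      |(#{y ∈ Fintype.piFinset (fun i => Ioc (a i) (b i)) | ((u < D * Pol A l c y + e ∧ D * Pol A l c y + e ≤ v) ∧
          0 < D * Pol A l c y + e) ∧ D * Pol A l c y + e ∈ S} : ℝ) -
        δ e * #{y ∈ Fintype.piFinset (fun i => Ioc (a i) (b i)) | (u < D * Pol A l c y + e ∧ D * Pol A l c y + e ≤ v) ∧
          0 < D * Pol A l c y + e}| ≤ ε * R ^ k := by
  have h : ∀ e : ℕ, ∃ R₀ : ℕ, e < D → ∀ R : ℕ, R₀ ≤ R → ∀ (l : Fin k → ℤ) (c : ℤ) (a b : Fin k → ℤ), Bnd B R l c a b →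
      ∀ u v : ℤ,
      |(#{y ∈ Fintype.piFinset (fun i => Ioc (a i) (b i)) | ((u < D * Pol A l c y + (e : ℤ) ∧ D * Pol A l c y + (e : ℤ) ≤ v) ∧
          0 < D * Pol A l c y + (e : ℤ)) ∧ D * Pol A l c y + (e : ℤ) ∈ S} : ℝ) -
        δ (e : ℤ) * #{y ∈ Fintype.piFinset (fun i => Ioc (a i) (b i)) | (u < D * Pol A l c y + (e : ℤ) ∧
          D * Pol A l c y + (e : ℤ) ≤ v) ∧ 0 < D * Pol A l c y + (e : ℤ)}| ≤ ε * R ^ k := by
    intro e
    by_cases he : e < D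
    · obtain ⟨R₀, h1⟩ := one_class_e hd hσ hD hS h01 (e := (e : ℤ)) ⟨by omega, by omega⟩ (hdn e (by omega) (by omega)) hA hB hε
      exact ⟨R₀, fun _ => h1⟩
    · exact ⟨0, fun h => absurd h he⟩
  choose R₀ h1 using h
  refine ⟨(range D).sup R₀, fun R hR l c a b hb u v e he0 heD => ?_⟩
  obtain ⟨e, rfl⟩ := Int.eq_ofNat_of_zero_le he0
  have he : e < D := by omega
  exact h1 e he R ((le_sup (mem_range.2 he)).trans hR) l c a b hb u v

/-- one class of points -/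
theorem class_form_k {d : ℤ} (hd : d % 2 = 1) {D : ℕ} {σ : ℤ} (hσ : σ = 1 ∨ σ = -1) (hD : (D : ℤ) = σ * d)
    {S : Set ℤ} (hS : Inv d S) {δ : ℤ → ℝ} (h01 : ∀ e, 0 ≤ δ e ∧ δ e ≤ 1)
    (hdn : ∀ e : ℤ, 0 ≤ e → e < D → Dn (fun n : ℕ => (D : ℤ) * n + e ∈ S) (δ e)) {A : Fin k → Fin k → ℤ} (hA : Mi A)
    {B ε : ℝ} (hB : 0 < B)
    (hε : 0 < ε) {q : ℕ} (hq : 1 ≤ q) : ∃ R₀ : ℕ, 1 ≤ R₀ ∧ ∀ R : ℕ, R₀ ≤ R → ∀ (l : Fin k → ℤ) (c : ℤ)
      (a b : Fin k → ℤ), Bnd B R l c a b → ∀ (u v : ℤ) (r : Fin k → ℤ), (∀ i, 0 ≤ r i ∧ r i < (q * D : ℕ)) →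
      |(#{x ∈ Pts A l c a b u v | (∀ i, x i % ((q * D : ℕ) : ℤ) = r i) ∧ Pol A l c x ∈ S} : ℝ) -
        δ (Pol A l c r % D) * #{x ∈ Pts A l c a b u v | ∀ i, x i % ((q * D : ℕ) : ℤ) = r i}| ≤ ε * R ^ k := by
  have hD0 : (0 : ℤ) < D := by rcases hσ with rfl | rfl <;> omega
  have hD1 : 1 ≤ D := by omega
  have hq' : 1 ≤ q * D := Nat.mul_pos hq hD1
  have hqz : ((q : ℤ) ^ 2 * D) ≠ 0 := by
    have : (q : ℤ) ≠ 0 := by exact_mod_cast (by omega : q ≠ 0)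
    exact mul_ne_zero (pow_ne_zero 2 this) hD0.ne'
  have hqr : (1 : ℝ) ≤ (q * D : ℕ) := by exact_mod_cast hq'
  have hB' : 0 < ((q * D : ℕ) : ℝ) ^ 2 * (2 * sa A + (k + 1) * B) := by positivity
  obtain ⟨R₀, h1⟩ := one_class hd hσ hD hS h01 hdn (mi_mul hA hqz) hB' hε
  refine ⟨R₀ + 1, by omega, fun R hR l c a b hb u v r hr => ?_⟩
  have hR1 : 1 ≤ R := by omega
  have hb' := bnd_sub A hB hq' hR1 hb hr
  have hqq : (1 : ℤ) ≤ q := by exact_mod_cast hq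
  have hDD : (1 : ℤ) ≤ D := by omega
  have hb2 : Bnd (((q * D : ℕ) : ℝ) ^ 2 * (2 * sa A + (k + 1) * B)) R (fun j => (q : ℤ) * (∑ i, Sy A i j * r i + l j))
      (Pol A l c r / D) (fun i => (a i - r i) / ((q * D : ℕ) : ℤ)) (fun i => (b i - r i) / ((q * D : ℕ) : ℤ)) := by
    obtain ⟨g1, g2, g3, g4⟩ := hb'
    refine ⟨fun j => le_trans ?_ (g1 j), le_trans ?_ g2, g3, g4⟩
    · push_cast
      rw [abs_mul, abs_mul]
      apply mul_le_mul_of_nonneg_right _ (abs_nonneg _)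
      have e1 : |(q : ℝ) * D| = |(q : ℝ)| * |(D : ℝ)| := abs_mul _ _
      rw [e1]
      have e2 : (1 : ℝ) ≤ |(D : ℝ)| := by
        rw [abs_of_nonneg (Nat.cast_nonneg _)]; exact_mod_cast hD1
      exact le_mul_of_one_le_right (abs_nonneg _) e2
    · have := abs_ediv_le (Pol A l c r) D
      exact_mod_cast this
  have h2 := h1 R (by omega) _ _ _ _ hb2 u v (Pol A l c r % D) (Int.emod_nonneg _ hD0.ne') (Int.emod_lt_of_pos _ hD0)
  have e1 := class_card A l c a b u v hq' hr (fun z => z ∈ S)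
  have e2 := class_card A l c a b u v hq' hr (fun _ => True)
  simp only [and_true, filter_true] at e2
  rw [e1, e2]
  have e3 : ∀ y : Fin k → ℤ, Pol (fun i j => ((q * D : ℕ) : ℤ) ^ 2 * A i j)
      (fun j => ((q * D : ℕ) : ℤ) * (∑ i, Sy A i j * r i + l j)) (Pol A l c r) y =
      D * Pol (fun i j => (q : ℤ) ^ 2 * D * A i j) (fun j => (q : ℤ) * (∑ i, Sy A i j * r i + l j)) (Pol A l c r / D) y +
        Pol A l c r % D := by
    intro y
    rw [← pol_mul]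
    congr 1
    · ext i j; push_cast; ring
    · ext j; push_cast; ring
    · exact (Int.mul_ediv_add_emod _ _).symm
  unfold Pts
  simp only [filter_filter, e3]
  exact h2

/-- PERIODIC CONDITIONS -/
theorem periodic_form_k {d : ℤ} (hd : d % 2 = 1) {D : ℕ} {σ : ℤ} (hσ : σ = 1 ∨ σ = -1) (hD : (D : ℤ) = σ * d)
    {S : Set ℤ} (hS : Inv d S) {δ : ℤ → ℝ} (h01 : ∀ e, 0 ≤ δ e ∧ δ e ≤ 1)
    (hdn : ∀ e : ℤ, 0 ≤ e → e < D → Dn (fun n : ℕ => (D : ℤ) * n + e ∈ S) (δ e)) {A : Fin k → Fin k → ℤ} (hA : Mi A)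
    {B ε : ℝ} (hB : 0 < B)
    (hε : 0 < ε) {q : ℕ} (hq : 1 ≤ q) : ∃ R₀ : ℕ, 1 ≤ R₀ ∧ ∀ R : ℕ, R₀ ≤ R → ∀ (l : Fin k → ℤ) (c : ℤ)
      (a b : Fin k → ℤ), Bnd B R l c a b → ∀ (u v : ℤ) (Q : (Fin k → ℤ) → Prop),
      (∀ x y : Fin k → ℤ, (∀ i, x i ≡ y i [ZMOD q]) → (Q x ↔ Q y)) →
      |(#{x ∈ Pts A l c a b u v | Q x ∧ Pol A l c x ∈ S} : ℝ) -
        ∑ j ∈ range D, δ j * #{x ∈ Pts A l c a b u v | Q x ∧ Pol A l c x % D = j}| ≤ ε * R ^ k := by
  have hD0 : (0 : ℤ) < D := by rcases hσ with rfl | rfl <;> omega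
  have hD1 : 1 ≤ D := by omega
  have hq' : 1 ≤ q * D := Nat.mul_pos hq hD1
  have hqr : (1 : ℝ) ≤ (q * D : ℕ) := by exact_mod_cast hq'
  have hq0 : (0 : ℤ) < (q * D : ℕ) := by exact_mod_cast hq'
  obtain ⟨R₀, hR0, h1⟩ := class_form_k hd hσ hD hS h01 hdn hA hB (show 0 < ε / ((q * D : ℕ) : ℝ) ^ k by positivity) hq
  refine ⟨R₀, hR0, fun R hR l c a b hb u v Q hQ => ?_⟩
  set T := (Fintype.piFinset (fun _ : Fin k => Ico (0 : ℤ) (q * D : ℕ))).filter Q with hT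
  have hTc : (#T : ℝ) ≤ ((q * D : ℕ) : ℝ) ^ k := by
    have h2 : #T ≤ #(Fintype.piFinset (fun _ : Fin k => Ico (0 : ℤ) (q * D : ℕ))) := card_filter_le _ _
    rw [Fintype.card_piFinset] at h2
    simp only [Int.card_Ico, sub_zero, Int.toNat_natCast, prod_const, card_univ, Fintype.card_fin] at h2
    exact_mod_cast h2
  have hQ' : ∀ x : Fin k → ℤ, Q (fun i => x i % ((q * D : ℕ) : ℤ)) ↔ Q x := by
    intro x
    apply hQ
    intro i
    exact (Int.mod_modEq (x i) ((q * D : ℕ) : ℤ)).of_dvd (by push_cast; exact Dvd.intro _ rfl)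
  have key : ∀ P : (Fin k → ℤ) → Prop, #{x ∈ Pts A l c a b u v | Q x ∧ P x} =
      ∑ r ∈ T, #{x ∈ Pts A l c a b u v | (∀ i, x i % ((q * D : ℕ) : ℤ) = r i) ∧ P x} := by
    intro P
    have hmaps : ∀ x ∈ (Pts A l c a b u v).filter (fun x => Q x ∧ P x), (fun i => x i % ((q * D : ℕ) : ℤ)) ∈ T := by
      intro x hx
      rw [mem_filter] at hx
      rw [hT, mem_filter, Fintype.mem_piFinset]
      refine ⟨fun i => ?_, ?_⟩
      · rw [mem_Ico]
        exact ⟨Int.emod_nonneg _ hq0.ne', Int.emod_lt_of_pos _ hq0⟩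
      · exact (hQ' x).2 hx.2.1
    rw [card_eq_sum_card_fiberwise hmaps]
    apply sum_congr rfl
    intro r hr
    rw [hT, mem_filter] at hr
    congr 1
    ext x
    rw [mem_filter, mem_filter, mem_filter]
    constructor
    · rintro ⟨⟨g1, g2, g3⟩, g4⟩
      exact ⟨g1, fun i => congrFun g4 i, g3⟩
    · rintro ⟨g1, g2, g3⟩
      have e : (fun i => x i % ((q * D : ℕ) : ℤ)) = r := funext g2
      refine ⟨⟨g1, ?_, g3⟩, e⟩
      rw [← e] at hr
      exact (hQ' x).1 hr.2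
  -- the value modulo `D` is constant on a class
  have hmod : ∀ x r : Fin k → ℤ, (∀ i, x i % ((q * D : ℕ) : ℤ) = r i) → Pol A l c x % D = Pol A l c r % D := by
    intro x r hx
    have e2 : ∀ i, x i ≡ r i [ZMOD D] := by
      intro i
      have h3 : x i ≡ r i [ZMOD ((q * D : ℕ) : ℤ)] := by
        rw [← hx i]; exact (Int.mod_modEq _ _).symm
      exact h3.of_dvd (by push_cast; exact Dvd.intro_left _ rfl)
    have hs : ∀ (s : Finset (Fin k)) (f g : Fin k → ℤ), (∀ i, f i ≡ g i [ZMOD D]) → ∑ i ∈ s, f i ≡ ∑ i ∈ s, g i [ZMOD D] := by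
      intro s f g hfg
      induction s using Finset.induction_on with
      | empty => rfl
      | insert i s hi ih => rw [sum_insert hi, sum_insert hi]; exact (hfg i).add ih
    show Pol A l c x ≡ Pol A l c r [ZMOD D]
    unfold Pol
    refine Int.ModEq.add (Int.ModEq.add (hs _ _ _ fun i => hs _ _ _ fun j => ?_) (hs _ _ _ fun i => ?_)) rfl
    · exact ((Int.ModEq.refl _).mul (e2 i)).mul (e2 j)
    · exact (Int.ModEq.refl _).mul (e2 i)
  have e1 := key (fun x => Pol A l c x ∈ S)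
  have e2 : ∀ j : ℕ, (#{x ∈ Pts A l c a b u v | Q x ∧ Pol A l c x % D = j} : ℝ) =
      ∑ r ∈ T, if Pol A l c r % D = j then (#{x ∈ Pts A l c a b u v | ∀ i, x i % ((q * D : ℕ) : ℤ) = r i} : ℝ) else 0 := by
    intro j
    have k1 : #{x ∈ Pts A l c a b u v | Q x ∧ Pol A l c x % D = j} =
        ∑ r ∈ T, #{x ∈ Pts A l c a b u v | (∀ i, x i % ((q * D : ℕ) : ℤ) = r i) ∧ Pol A l c x % D = j} := by
      have k2 := key (fun x => Pol A l c x % D = j)
      convert k2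
    rw [k1]
    push_cast
    apply sum_congr rfl
    intro r _
    split_ifs with h5
    · congr 2
      ext x
      rw [mem_filter, mem_filter]
      constructor
      · rintro ⟨g1, g2, -⟩; exact ⟨g1, g2⟩
      · rintro ⟨g1, g2⟩; exact ⟨g1, g2, by rw [hmod x r g2, h5]⟩
    · rw [Nat.cast_eq_zero, card_eq_zero, filter_eq_empty_iff]
      rintro x - ⟨g2, g3⟩
      exact h5 (by rw [← hmod x r g2, g3])
  have e3 : ∑ j ∈ range D, δ j * (#{x ∈ Pts A l c a b u v | Q x ∧ Pol A l c x % D = j} : ℝ) =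
      ∑ r ∈ T, δ (Pol A l c r % D) * #{x ∈ Pts A l c a b u v | ∀ i, x i % ((q * D : ℕ) : ℤ) = r i} := by
    simp_rw [e2, mul_sum]
    rw [sum_comm]
    apply sum_congr rfl
    intro r _
    have h6 : ((Pol A l c r % D).toNat : ℤ) = Pol A l c r % D := Int.toNat_of_nonneg (Int.emod_nonneg _ hD0.ne')
    have h7 := Int.emod_lt_of_pos (Pol A l c r) hD0
    rw [sum_eq_single (Pol A l c r % D).toNat]
    · rw [if_pos h6.symm, h6]
    · intro j _ hj
      rw [if_neg, mul_zero]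
      intro h8
      exact hj (by omega)
    · intro h8
      rw [mem_range] at h8
      omega
  rw [e1, e3]
  push_cast
  rw [← sum_sub_distrib]
  calc _ ≤ ∑ _r ∈ T, ε / ((q * D : ℕ) : ℝ) ^ k * R ^ k := by
        refine (abs_sum_le_sum_abs _ _).trans (sum_le_sum fun r hr => ?_)
        rw [hT, mem_filter, Fintype.mem_piFinset] at hr
        have h9 := h1 R hR l c a b hb u v r (fun i => by have := hr.1 i; rwa [mem_Ico] at this)
        push_cast at h9 ⊢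
        exact h9
    _ = #T * (ε / ((q * D : ℕ) : ℝ) ^ k * R ^ k) := by rw [sum_const, nsmul_eq_mul]
    _ ≤ ((q * D : ℕ) : ℝ) ^ k * (ε / ((q * D : ℕ) : ℝ) ^ k * R ^ k) := by gcongr
    _ = ε * R ^ k := by field_simp

end Pool.Agent.Run7.h145.QK
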