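import Pool.Agent.Run7.h145.QK.B
import Pool.Agent.Run7.h145.QL.X

/-! Invariant sets of the maps `T_{3,k}` along quadratic polynomials: the counting law on both sides. -/

set_option autoImplicit false

namespace Pool.Agent.Run7.h145.QK

open Finset Pool.Agent.H499R2.ND Filter Topology
open Pool.Agent.Run7.h145.QP (Pol Sy)
open Pool.Agent.Run7.h145.QL (Pts Bnd Mi)
open Pool.Agent.Run7.h145.QL.X
open scoped Classical

theorem weight_sum {α : Type} (F : Finset α) (φ : α → ℤ) {D : ℕ} (hD : 1 ≤ D) {δ : ℤ → ℝ} (hδ : ∀ z, δ (z % D) = δ z) :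
    ∑ j ∈ range D, δ j * (#{x ∈ F | φ x % D = j} : ℝ) = ∑ x ∈ F, δ (φ x) := by
  have hD0 : (0 : ℤ) < D := by exact_mod_cast hD
  have h6 : ∀ z : ℤ, ((z % D).toNat : ℤ) = z % D := fun z => Int.toNat_of_nonneg (Int.emod_nonneg _ hD0.ne')
  have h1 : ∑ x ∈ F, δ (φ x) = ∑ j ∈ range D, ∑ x ∈ F with (φ x % D).toNat = j, δ (φ x) := by
    symm
    apply sum_fiberwise_of_maps_to
    intro x _
    rw [mem_range]
    have h7 := Int.emod_lt_of_pos (φ x) hD0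
    have h8 := h6 (φ x)
    omega
  rw [h1]
  apply sum_congr rfl
  intro j _
  have e : F.filter (fun x => φ x % D = j) = F.filter (fun x => (φ x % D).toNat = j) := by
    ext x
    rw [mem_filter, mem_filter]
    have h8 := h6 (φ x)
    constructor
    · rintro ⟨g1, g2⟩; exact ⟨g1, by omega⟩
    · rintro ⟨g1, g2⟩; exact ⟨g1, by omega⟩
  rw [e, mul_comm, ← nsmul_eq_mul, ← sum_const]
  apply sum_congr rfl
  intro x hx
  rw [mem_filter] at hx
  rw [← hδ (φ x), ← h6 (φ x), hx.2]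

theorem emod_per {D : ℕ} {δ : ℤ → ℝ} (hδ : ∀ a b : ℤ, a ≡ b [ZMOD D] → δ a = δ b) (z : ℤ) : δ (z % D) = δ z :=
  hδ _ _ (Int.mod_modEq z D)

/-- the positive side, as a sum -/
theorem law_pos {k : ℕ} {d : ℤ} (hd : d % 2 = 1) {D : ℕ} {σ : ℤ} (hσ : σ = 1 ∨ σ = -1) (hD : (D : ℤ) = σ * d)
    {S : Set ℤ} (hS : Inv d S) {δ : ℤ → ℝ} (h01 : ∀ e, 0 ≤ δ e ∧ δ e ≤ 1) (hδ : ∀ a b : ℤ, a ≡ b [ZMOD D] → δ a = δ b)
    (hdn : ∀ e : ℤ, 0 ≤ e → e < D → Dn (fun n : ℕ => (D : ℤ) * n + e ∈ S) (δ e)) {A : Fin k → Fin k → ℤ} (hA : Mi A)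
    {B ε : ℝ} (hB : 0 < B)
    (hε : 0 < ε) {q : ℕ} (hq : 1 ≤ q) : ∃ R₀ : ℕ, 1 ≤ R₀ ∧ ∀ R : ℕ, R₀ ≤ R → ∀ (l : Fin k → ℤ) (c : ℤ)
      (a b : Fin k → ℤ), Bnd B R l c a b → ∀ (u v : ℤ) (Q : (Fin k → ℤ) → Prop),
      (∀ x y : Fin k → ℤ, (∀ i, x i ≡ y i [ZMOD q]) → (Q x ↔ Q y)) →
      |∑ x ∈ Pts A l c a b u v with Q x, ((if Pol A l c x ∈ S then (1 : ℝ) else 0) - δ (Pol A l c x))| ≤ ε * R ^ k := by
  have hD1 : 1 ≤ D := by rcases hσ with rfl | rfl <;> omega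
  obtain ⟨R₀, hR0, h1⟩ := periodic_form_k hd hσ hD hS h01 hdn hA hB hε hq
  refine ⟨R₀, hR0, fun R hR l c a b hb u v Q hQ => ?_⟩
  have h2 := h1 R hR l c a b hb u v Q hQ
  have e1 := weight_sum ((Pts A l c a b u v).filter Q) (Pol A l c) hD1 (emod_per hδ)
  rw [sum_sub_distrib, ← e1, ← sum_filter, sum_const, nsmul_eq_mul, mul_one]
  simp only [filter_filter]
  convert h2 using 2

/-- the counting law -/
def LawS (s k : ℤ) (S : Set ℤ) (δ : ℤ → ℝ) : Prop := ∀ (n : ℕ) (A : Fin n → Fin n → ℤ), RankTwo A →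
  ∀ (B ε : ℝ) (q : ℕ), 0 < B → 0 < ε → 1 ≤ q → ∃ R₀ : ℕ, ∀ R : ℕ, R₀ ≤ R →
  ∀ (l : Fin n → ℤ) (c : ℤ) (a b : Fin n → ℤ), (∀ i, |(l i : ℝ)| ≤ B * R) → |(c : ℝ)| ≤ B * R ^ 2 →
  (∀ i, |a i| ≤ R ∧ |b i| ≤ R) → ∀ (u v : ℤ) (D : Set (Fin n → ℤ)),
  (∀ x y : Fin n → ℤ, (∀ i, x i ≡ y i [ZMOD q]) → (x ∈ D ↔ y ∈ D)) →
  |({x ∈ PointsS s A l c a b u v D | Val A l c x ∈ S}.ncard : ℝ) -
    ∑ j ∈ range k.natAbs, δ j * ({x ∈ PointsS s A l c a b u v D | Val A l c x ≡ (j : ℤ) [ZMOD k]}.ncard : ℝ)| ≤ ε * R ^ n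

theorem val_smul {n : ℕ} (s : ℤ) (A : Fin n → Fin n → ℤ) (l : Fin n → ℤ) (c : ℤ) (x : Fin n → ℤ) :
    Val (fun i j => s * A i j) (fun i => s * l i) (s * c) x = s * Val A l c x := by
  have h := pol_mul A l c s 0 x
  rw [add_zero, add_zero] at h
  exact h

theorem rank_smul {n : ℕ} {s : ℤ} (hs : s = 1 ∨ s = -1) {A : Fin n → Fin n → ℤ} (h : RankTwo A) :
    RankTwo (fun i j => s * A i j) := by
  obtain ⟨p, q, r, t, h⟩ := h
  refine ⟨p, q, r, t, fun h1 => h ?_⟩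
  have hss : s * s = 1 := by rcases hs with rfl | rfl <;> norm_num
  linear_combination h1 - (A p r + A r p) * (A q t + A t q) * (hss) + (A p t + A t p) * (A q r + A r q) * hss

theorem lawS {s k : ℤ} (hs : s = 1 ∨ s = -1) (hk : k % 2 = 1) {S : Set ℤ} (hS : Inv k S) {δ : ℤ → ℝ}
    (h01 : ∀ e, 0 ≤ δ e ∧ δ e ≤ 1) (hδ : ∀ a b : ℤ, a ≡ b [ZMOD k] → δ a = δ b)
    (hdn : ∀ e : ℤ, 0 ≤ e → e < k.natAbs → Dn (fun n : ℕ => s * ((k.natAbs : ℤ) * n + e) ∈ S) (δ (s * e))) :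
    LawS s k S δ := by
  intro n A hA B ε q hB hε hq
  have hss : s * s = 1 := by rcases hs with rfl | rfl <;> norm_num
  have hodd : Odd k := Int.odd_iff.2 hk
  have hInv : Inv (s * k) {x | s * x ∈ S} := side_inv hodd hs (S := S) hS
  have hsk : (s * k) % 2 = 1 := by rcases hs with rfl | rfl <;> omega
  have hD1 : 1 ≤ k.natAbs := by omega
  obtain ⟨σ, hσ, hD⟩ : ∃ σ : ℤ, (σ = 1 ∨ σ = -1) ∧ ((k.natAbs : ℕ) : ℤ) = σ * (s * k) := by
    rcases hs with rfl | rfl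
    · rcases le_total 0 k with h | h
      · exact ⟨1, Or.inl rfl, by omega⟩
      · exact ⟨-1, Or.inr rfl, by omega⟩
    · rcases le_total 0 k with h | h
      · exact ⟨-1, Or.inr rfl, by omega⟩
      · exact ⟨1, Or.inl rfl, by omega⟩
  have hmodk : ∀ a b : ℤ, a ≡ b [ZMOD ((k.natAbs : ℕ) : ℤ)] ↔ a ≡ b [ZMOD k] := by
    intro a b
    rw [Int.modEq_iff_dvd, Int.modEq_iff_dvd, Int.natAbs_dvd]
  have hδ' : ∀ a b : ℤ, a ≡ b [ZMOD ((k.natAbs : ℕ) : ℤ)] → δ (s * a) = δ (s * b) := by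
    intro a b hab
    exact hδ _ _ (((hmodk a b).1 hab).mul_left s)
  obtain ⟨R₀, -, h1⟩ := law_pos hsk hσ hD hInv (δ := fun z => δ (s * z)) (fun e => h01 _) hδ' hdn (mi (rank_smul hs hA)) hB hε hq
  refine ⟨R₀, fun R hR l c a b hl hc hab u v D hDp => ?_⟩
  have hsabs : |(s : ℝ)| = 1 := by rcases hs with rfl | rfl <;> norm_num
  have hb : Bnd B R (fun i => s * l i) (s * c) a b := by
    refine ⟨fun i => ?_, ?_, fun i => (hab i).1, fun i => (hab i).2⟩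
    · push_cast; rw [abs_mul, hsabs, one_mul]; exact hl i
    · push_cast; rw [abs_mul, hsabs, one_mul]; exact hc
  have h2 := h1 R hR _ _ a b hb (if s = 1 then u else -v - 1) (if s = 1 then v else -u - 1) (fun x => x ∈ D) hDp
  set F := (Pts (fun i j => s * A i j) (fun i => s * l i) (s * c) a b (if s = 1 then u else -v - 1)
    (if s = 1 then v else -u - 1)).filter (fun x => x ∈ D) with hF
  have hmem : ∀ x, x ∈ F ↔ x ∈ PointsS s A l c a b u v D := by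
    intro x
    rw [hF, mem_filter]
    unfold Pts PointsS
    rw [mem_filter, Fintype.mem_piFinset]
    have hv : Pol (fun i j => s * A i j) (fun i => s * l i) (s * c) x = s * Val A l c x := val_smul s A l c x
    rw [hv]
    simp only [mem_Ioc, Set.mem_ofPred_eq]
    rcases hs with rfl | rfl
    · simp only [if_true, one_mul]
      tauto
    · have hne : ¬ ((-1 : ℤ) = 1) := by norm_num
      simp only [if_neg hne]
      constructor
      · rintro ⟨⟨g1, g2, g3⟩, g4⟩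
        exact ⟨g1, by omega, g3, g4⟩
      · rintro ⟨g1, g2, g3, g4⟩
        exact ⟨⟨g1, by omega, g3⟩, g4⟩
  have e1 : ∀ P : (Fin n → ℤ) → Prop, ({x ∈ PointsS s A l c a b u v D | P x}.ncard : ℝ) = #(F.filter P) := by
    intro P
    rw [← Set.ncard_coe_finset]
    congr 2
    ext x
    simp only [coe_filter, Set.mem_ofPred_eq, hmem]
  have e2 : ∑ j ∈ range k.natAbs, δ j * ({x ∈ PointsS s A l c a b u v D | Val A l c x ≡ (j : ℤ) [ZMOD k]}.ncard : ℝ) =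
      ∑ x ∈ F, δ (Val A l c x) := by
    rw [← weight_sum F (Val A l c) hD1 (emod_per (fun a b h => hδ a b ((hmodk a b).1 h)))]
    apply sum_congr rfl
    intro j hj
    rw [mem_range] at hj
    rw [e1 (fun x => Val A l c x ≡ (j : ℤ) [ZMOD k])]
    congr 3
    ext x
    simp only [mem_filter]
    rw [← hmodk]
    unfold Int.ModEq
    rw [Int.emod_eq_of_lt (by omega : (0 : ℤ) ≤ (j : ℤ)) (by omega)]
  rw [e1 (fun x => Val A l c x ∈ S), e2]
  refine le_trans (le_of_eq ?_) h2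
  congr 1
  rw [sum_sub_distrib, ← sum_filter, sum_const, nsmul_eq_mul, mul_one]
  have hv : ∀ x, Pol (fun i j => s * A i j) (fun i => s * l i) (s * c) x = s * Val A l c x := val_smul s A l c
  have hvv : ∀ z : ℤ, s * (s * z) = z := fun z => by rw [← mul_assoc, hss, one_mul]
  congr 1
  · congr 2
    ext x
    simp only [mem_filter, Set.mem_ofPred_eq, hv, hvv]
  · apply sum_congr rfl
    intro x _
    simp only [hv, hvv]

end Pool.Agent.Run7.h145.QK
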