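import Pool.Agent.Run7.h145.QK.C
import Pool.Agent.Results.MP_7f88e4_nt.ResidueClasses

/-! Invariant sets of the maps `T_{3,k}` along quadratic polynomials: densities in the residue classes modulo
`k`, and consequences of the counting law. -/

set_option autoImplicit false

namespace Pool.Agent.Run7.h145.QK

open Finset Pool.Agent.H499R2.ND Filter Topology
open Pool.Agent.Run7.h145.QP (Pol Sy)
open Pool.Agent.Run7.h145.QL (Pts Bnd Mi pol_sub)
open Pool.Agent.Run7.h145.QL.X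
open scoped Classical

/-- among the integers of sign `s` congruent to `a` modulo `k` the set `S` has natural density `δ` -/
def HasDensityK (s k a : ℤ) (S : Set ℤ) (δ : ℝ) : Prop :=
  Tendsto (fun N : ℕ => (k.natAbs : ℝ) * ({n : ℤ | 0 < s * n ∧ s * n ≤ N ∧ n ≡ a [ZMOD k] ∧ n ∈ S}.ncard : ℝ) / N)
    atTop (𝓝 δ)

theorem dn_of_class {s k : ℤ} (hs : s = 1 ∨ s = -1) (hk : k ≠ 0) {S : Set ℤ} {e : ℤ} (he : 0 ≤ e) (hek : e < k.natAbs)
    {δ : ℝ} (h : HasDensityK s k (s * e) S δ) : Dn (fun n : ℕ => s * ((k.natAbs : ℤ) * n + e) ∈ S) δ := by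
  have hss : s * s = 1 := by rcases hs with rfl | rfl <;> norm_num
  have hvv : ∀ z : ℤ, s * (s * z) = z := fun z => by rw [← mul_assoc, hss, one_mul]
  set D : ℕ := k.natAbs with hD
  have hD1 : 1 ≤ D := by omega
  have hD0 : (0 : ℤ) < D := by exact_mod_cast hD1
  have hDr : (0 : ℝ) < D := by exact_mod_cast hD1
  obtain ⟨e, rfl⟩ := Int.eq_ofNat_of_zero_le he
  have he' : e < D := by exact_mod_cast hek
  set M : ℕ → Set ℤ := fun N => {n : ℤ | 0 < s * n ∧ s * n ≤ (N : ℕ) ∧ n ≡ s * (e : ℤ) [ZMOD k] ∧ n ∈ S} with hM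
  have hmodk : ∀ a b : ℤ, a ≡ b [ZMOD ((k.natAbs : ℕ) : ℤ)] ↔ a ≡ b [ZMOD k] := by
    intro a b
    rw [Int.modEq_iff_dvd, Int.modEq_iff_dvd, Int.natAbs_dvd]
  -- the set at `D n + e`
  have hMfin : ∀ N, (M N).Finite := by
    intro N
    apply (Set.finite_Icc (-(N : ℤ)) N).subset
    rintro n ⟨h1, h2, -⟩
    rcases hs with rfl | rfl
    · exact ⟨by omega, by omega⟩
    · exact ⟨by omega, by omega⟩
  have hc1 : ∀ n : ℕ, Pool.Agent.H499R2.ND.cnt (fun n : ℕ => s * ((D : ℤ) * n + (e : ℤ)) ∈ S) n ≤ (M (D * n + e)).ncard := by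
    intro n
    unfold Pool.Agent.H499R2.ND.cnt
    rw [← Set.InjOn.ncard_image (f := fun m : ℕ => s * ((D : ℤ) * m + (e : ℤ))) (s := {m : ℕ | 1 ≤ m ∧ m ≤ n ∧ _})]
    · apply Nat.cast_le.2
      apply Set.ncard_le_ncard _ (hMfin _)
      rintro x ⟨m, ⟨h1, h2, h3⟩, rfl⟩
      refine ⟨?_, ?_, ?_, h3⟩
      · simp only [hvv]
        have : (1 : ℤ) ≤ m := by exact_mod_cast h1
        positivity
      · simp only [hvv]
        push_cast
        have : (m : ℤ) ≤ n := by exact_mod_cast h2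
        nlinarith
      · simp only
        rw [← hmodk]
        refine Int.ModEq.mul_left s ?_
        show (D : ℤ) * m + e ≡ e [ZMOD D]
        unfold Int.ModEq
        rw [add_comm, Int.add_mul_emod_self_left]
    · intro m _ m' _ h
      have h5 : s * (s * ((D : ℤ) * m + (e : ℤ))) = s * (s * ((D : ℤ) * m' + (e : ℤ))) := congrArg (fun z => s * z) h
      rw [hvv, hvv] at h5
      have h6 : (D : ℤ) * m = D * m' := by linarith
      exact_mod_cast mul_left_cancel₀ hD0.ne' h6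
  have hc2 : ∀ n : ℕ, ((M (D * n + e)).ncard : ℝ) ≤
      Pool.Agent.H499R2.ND.cnt (fun n : ℕ => s * ((D : ℤ) * n + (e : ℤ)) ∈ S) n + 1 := by
    intro n
    have hsub : M (D * n + e) ⊆ insert (s * (e : ℤ)) ((fun m : ℕ => s * ((D : ℤ) * m + (e : ℤ))) ''
        {m : ℕ | 1 ≤ m ∧ m ≤ n ∧ s * ((D : ℤ) * m + (e : ℤ)) ∈ S}) := by
      rintro x ⟨h1, h2, h3, h4⟩
      rw [← hmodk] at h3
      have h5 : s * x ≡ e [ZMOD D] := by
        have := h3.mul_left s
        rwa [hvv] at this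
      have h6 : (s * x) % D = e := by
        rw [h5, Int.emod_eq_of_lt (by omega) (by omega)]
      have h7 := Int.mul_ediv_add_emod (s * x) D
      rw [h6] at h7
      have h8 : 0 ≤ s * x / D := Int.ediv_nonneg h1.le hD0.le
      obtain ⟨m, hm⟩ := Int.eq_ofNat_of_zero_le h8
      rw [hm] at h7
      have hx : x = s * ((D : ℤ) * m + e) := by rw [h7, hvv]
      rcases Nat.eq_zero_or_pos m with h0 | h0
      · left
        rw [hx, h0]; simp
      · right
        refine ⟨m, ⟨h0, ?_, by rw [← hx]; exact h4⟩, hx.symm⟩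
        by_contra hcon
        push Not at hcon
        rw [← h7] at h2
        push_cast at h2
        have : (n : ℤ) + 1 ≤ m := by exact_mod_cast hcon
        nlinarith
    have hfin : {m : ℕ | 1 ≤ m ∧ m ≤ n ∧ s * ((D : ℤ) * m + (e : ℤ)) ∈ S}.Finite :=
      (Set.finite_Icc 1 n).subset fun m hm => ⟨hm.1, hm.2.1⟩
    have h1 := Set.ncard_le_ncard hsub ((hfin.image _).insert _)
    have h2 := Set.ncard_insert_le (s * (e : ℤ)) ((fun m : ℕ => s * ((D : ℤ) * m + (e : ℤ))) ''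
        {m : ℕ | 1 ≤ m ∧ m ≤ n ∧ s * ((D : ℤ) * m + (e : ℤ)) ∈ S})
    have h3 := Set.ncard_image_le (f := fun m : ℕ => s * ((D : ℤ) * m + (e : ℤ))) hfin
    unfold Pool.Agent.H499R2.ND.cnt
    exact_mod_cast h1.trans (h2.trans (Nat.add_le_add_right h3 1))
  -- limits
  have t0 : Tendsto (fun n : ℕ => D * n + e) atTop atTop := by
    apply tendsto_atTop_mono (fun n => ?_) tendsto_id
    show n ≤ D * n + e
    nlinarith
  have t1 : Tendsto (fun n : ℕ => (D : ℝ) * ((M (D * n + e)).ncard : ℝ) / ((D * n + e : ℕ) : ℝ)) atTop (𝓝 δ) := h.comp t0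
  have t2 : Tendsto (fun n : ℕ => (((D * n + e : ℕ) : ℝ)) / (D * n)) atTop (𝓝 1) := by
    have h1 : Tendsto (fun n : ℕ => 1 + ((e : ℝ) / D) * (1 / (n : ℝ))) atTop (𝓝 (1 + (e : ℝ) / D * 0)) :=
      tendsto_const_nhds.add (tendsto_const_nhds.mul tendsto_one_div_atTop_nhds_zero_nat)
    rw [mul_zero, add_zero] at h1
    refine h1.congr' ?_
    filter_upwards [eventually_ge_atTop 1] with n hn
    have : (0 : ℝ) < n := by exact_mod_cast hn
    push_cast
    field_simp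
  have t3 : Tendsto (fun n : ℕ => ((M (D * n + e)).ncard : ℝ) / n) atTop (𝓝 δ) := by
    have h1 := t1.mul t2
    rw [mul_one] at h1
    refine h1.congr' ?_
    filter_upwards [eventually_ge_atTop 1] with n hn
    have h2 : (0 : ℝ) < n := by exact_mod_cast hn
    have h3 : (0 : ℝ) < ((D * n + e : ℕ) : ℝ) := by push_cast; positivity
    field_simp
  have t4 : Tendsto (fun n : ℕ => ((M (D * n + e)).ncard : ℝ) / n - 1 / n) atTop (𝓝 δ) := by
    have := t3.sub tendsto_one_div_atTop_nhds_zero_nat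
    rwa [sub_zero] at this
  refine tendsto_of_tendsto_of_tendsto_of_le_of_le t4 t3 (fun n => ?_) (fun n => ?_)
  · simp only
    rw [← sub_div]
    apply div_le_div_of_nonneg_right _ (Nat.cast_nonneg _)
    have := hc2 n
    linarith
  · exact div_le_div_of_nonneg_right (hc1 n) (Nat.cast_nonneg _)

theorem cntn_le (P : ℕ → Prop) (n : ℕ) : Pool.Agent.H499R2.ND.cnt P n ≤ n := by
  rw [cnt_eq]
  have : #((Icc 1 n).filter P) ≤ #(Icc 1 n) := card_filter_le _ _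
  rw [Nat.card_Icc, Nat.add_sub_cancel] at this
  exact_mod_cast this

theorem dn01 {P : ℕ → Prop} {δ : ℝ} (h : Dn P δ) : 0 ≤ δ ∧ δ ≤ 1 := by
  constructor
  · exact ge_of_tendsto' h fun n => div_nonneg (cntn_nonneg P n) (Nat.cast_nonneg _)
  · exact le_of_tendsto' h fun n => div_le_one_of_le₀ (cntn_le P n) (Nat.cast_nonneg _)

/-- THE STRUCTURE THEOREM -/
theorem structure_k {s k : ℤ} (hs : s = 1 ∨ s = -1) (hk : k % 6 = 1 ∨ k % 6 = 5) {S : Set ℤ} (hS : Inv k S) :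
    ∃ δ : ℤ → ℝ, (∀ a, HasDensityK s k a S (δ a)) ∧ (∀ a, 0 ≤ δ a ∧ δ a ≤ 1) ∧
      (∀ a b : ℤ, (∃ i j : ℕ, a ≡ 2 ^ i * 3 ^ j * b [ZMOD k]) → δ a = δ b) ∧
      (∀ a x : ℤ, x ∈ S → 0 < s * x → ¬ (3 : ℤ) ∣ x → (∃ i j : ℕ, a ≡ 2 ^ i * 3 ^ j * x [ZMOD k]) → 0 < δ a) ∧
      LawS s k S δ := by
  have hss : s * s = 1 := by rcases hs with rfl | rfl <;> norm_num
  have hk0 : k ≠ 0 := by omega
  have hk2 : k % 2 = 1 := by omega
  have hD1 : 1 ≤ k.natAbs := by omega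
  have hDr : (0 : ℝ) < (k.natAbs : ℝ) := by exact_mod_cast hD1
  obtain ⟨δ, h1, h2, h3⟩ := Pool.Agent.Results.MP_7f88e4_nt.ResidueClasses.main hk (A := S) hS hs k.natAbs hD1
  have hg : ((Int.gcd (k.natAbs : ℤ) k : ℕ) : ℤ) = k.natAbs := by
    have : Int.gcd (k.natAbs : ℤ) k = k.natAbs := by
      rw [Int.gcd_eq_natAbs, Int.natAbs_natCast, Nat.gcd_self]
    rw [this]
  have hmodk : ∀ a b : ℤ, a ≡ b [ZMOD ((k.natAbs : ℕ) : ℤ)] ↔ a ≡ b [ZMOD k] := by
    intro a b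
    rw [Int.modEq_iff_dvd, Int.modEq_iff_dvd, Int.natAbs_dvd]
  rw [hg] at h2 h3
  have hrel : ∀ a b : ℤ, Pool.Agent.Results.MP_7f88e4_nt.ResidueClasses.Rel ((k.natAbs : ℕ) : ℤ) a b ↔
      ∃ i j : ℕ, a ≡ 2 ^ i * 3 ^ j * b [ZMOD k] := by
    intro a b
    unfold Pool.Agent.Results.MP_7f88e4_nt.ResidueClasses.Rel
    simp only [hmodk]
  have hdens : ∀ a, HasDensityK s k a S (k.natAbs * δ a) := by
    intro a
    have h4 := (h1 a).const_mul (k.natAbs : ℝ)
    unfold HasDensityK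
    refine h4.congr fun N => ?_
    rw [mul_div_assoc]
    congr 4
    ext n
    simp only [Set.mem_ofPred_eq, hmodk]
    tauto
  have hper : ∀ a b : ℤ, a ≡ b [ZMOD k] → (k.natAbs : ℝ) * δ a = k.natAbs * δ b := by
    intro a b hab
    rw [h2 a b ((hrel a b).2 ⟨0, 0, by simpa using hab⟩)]
  have hdn : ∀ e : ℤ, 0 ≤ e → e < k.natAbs → Dn (fun n : ℕ => s * ((k.natAbs : ℤ) * n + e) ∈ S) (k.natAbs * δ (s * e)) :=
    fun e he hek => dn_of_class hs hk0 he hek (hdens (s * e))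
  have h01 : ∀ a, 0 ≤ (k.natAbs : ℝ) * δ a ∧ (k.natAbs : ℝ) * δ a ≤ 1 := by
    intro a
    have hD0 : (0 : ℤ) < k.natAbs := by exact_mod_cast hD1
    have h5 := dn01 (hdn ((s * a) % k.natAbs) (Int.emod_nonneg _ hD0.ne') (Int.emod_lt_of_pos _ hD0))
    have h6 : (k.natAbs : ℝ) * δ (s * ((s * a) % k.natAbs)) = k.natAbs * δ a := by
      apply hper
      rw [← hmodk]
      have h7 : (s * a) % k.natAbs ≡ s * a [ZMOD ((k.natAbs : ℕ) : ℤ)] := Int.mod_modEq _ _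
      have h8 := h7.mul_left s
      rwa [← mul_assoc s s, hss, one_mul] at h8
    rwa [h6] at h5
  refine ⟨fun a => k.natAbs * δ a, hdens, h01, fun a b hab => ?_, fun a x hx hsx hx3 hax => ?_, ?_⟩
  · simp only
    rw [h2 a b ((hrel a b).2 hab)]
  · exact mul_pos hDr (h3 a x hx hsx hx3 ((hrel a x).2 hax))
  · exact lawS hs hk2 hS h01 hper hdn

/-- the law on one class of points -/
theorem law_class {s k : ℤ} (hk : k ≠ 0) {S : Set ℤ} {δ : ℤ → ℝ} (hδ : ∀ a b : ℤ, a ≡ b [ZMOD k] → δ a = δ b)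
    (h : LawS s k S δ) {n : ℕ} {A : Fin n → Fin n → ℤ} (hA : RankTwo A) {B ε : ℝ} (hB : 0 < B) (hε : 0 < ε) :
    ∃ R₀ : ℕ, ∀ R : ℕ, R₀ ≤ R → ∀ (l : Fin n → ℤ) (c : ℤ) (a b : Fin n → ℤ), (∀ i, |(l i : ℝ)| ≤ B * R) →
      |(c : ℝ)| ≤ B * R ^ 2 → (∀ i, |a i| ≤ R ∧ |b i| ≤ R) → ∀ (u v : ℤ) (r : Fin n → ℤ),
      |({x ∈ PointsS s A l c a b u v {x | ∀ i, x i ≡ r i [ZMOD k]} | Val A l c x ∈ S}.ncard : ℝ) -
        δ (Val A l c r) * (PointsS s A l c a b u v {x | ∀ i, x i ≡ r i [ZMOD k]}).ncard| ≤ ε * R ^ n := by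
  have hD1 : 1 ≤ k.natAbs := by omega
  have hD0 : (0 : ℤ) < k.natAbs := by exact_mod_cast hD1
  have hmodk : ∀ a b : ℤ, a ≡ b [ZMOD ((k.natAbs : ℕ) : ℤ)] ↔ a ≡ b [ZMOD k] := by
    intro a b
    rw [Int.modEq_iff_dvd, Int.modEq_iff_dvd, Int.natAbs_dvd]
  obtain ⟨R₀, h1⟩ := h n A hA B ε k.natAbs hB hε hD1
  refine ⟨R₀, fun R hR l c a b hl hc hab u v r => ?_⟩
  have h2 := h1 R hR l c a b hl hc hab u v {x | ∀ i, x i ≡ r i [ZMOD k]} (by
    intro x y hxy
    simp only [Set.mem_ofPred_eq]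
    refine forall_congr' fun i => ?_
    have h3 := (hmodk _ _).1 (hxy i)
    exact ⟨fun h4 => h3.symm.trans h4, fun h4 => h3.trans h4⟩)
  have hval : ∀ x : Fin n → ℤ, (∀ i, x i ≡ r i [ZMOD k]) → Val A l c x ≡ Val A l c r [ZMOD k] := by
    intro x e2
    have hs : ∀ (s : Finset (Fin n)) (f g : Fin n → ℤ), (∀ i, f i ≡ g i [ZMOD k]) → ∑ i ∈ s, f i ≡ ∑ i ∈ s, g i [ZMOD k] := by
      intro s f g hfg
      induction s using Finset.induction_on with
      | empty => rfl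
      | insert i s hi ih => rw [sum_insert hi, sum_insert hi]; exact (hfg i).add ih
    unfold Val
    refine Int.ModEq.add (Int.ModEq.add (hs _ _ _ fun i => hs _ _ _ fun j => ?_) (hs _ _ _ fun i => ?_)) rfl
    · exact ((Int.ModEq.refl _).mul (e2 i)).mul (e2 j)
    · exact (Int.ModEq.refl _).mul (e2 i)
  set j₀ : ℕ := (Val A l c r % k.natAbs).toNat with hj₀
  have hj1 : (j₀ : ℤ) = Val A l c r % k.natAbs := Int.toNat_of_nonneg (Int.emod_nonneg _ hD0.ne')
  have hj2 : (j₀ : ℤ) ≡ Val A l c r [ZMOD k] := by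
    rw [← hmodk, hj1]
    exact Int.mod_modEq _ _
  have hj3 : j₀ < k.natAbs := by
    have := Int.emod_lt_of_pos (Val A l c r) hD0
    omega
  have e1 : ∑ j ∈ range k.natAbs, δ j * ({x ∈ PointsS s A l c a b u v {x | ∀ i, x i ≡ r i [ZMOD k]} |
      Val A l c x ≡ (j : ℤ) [ZMOD k]}.ncard : ℝ) =
      δ (Val A l c r) * (PointsS s A l c a b u v {x | ∀ i, x i ≡ r i [ZMOD k]}).ncard := by
    rw [sum_eq_single j₀]
    · rw [hδ _ _ hj2]
      congr 3
      ext x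
      constructor
      · rintro ⟨g1, -⟩; exact g1
      · intro g1
        exact ⟨g1, (hval x g1.2.2.2).trans hj2.symm⟩
    · intro j hj hne
      rw [mem_range] at hj
      have : {x ∈ PointsS s A l c a b u v {x | ∀ i, x i ≡ r i [ZMOD k]} | Val A l c x ≡ (j : ℤ) [ZMOD k]} = ∅ := by
        rw [Set.eq_empty_iff_forall_notMem]
        rintro x ⟨g1, g2⟩
        apply hne
        have g3 : (j : ℤ) ≡ j₀ [ZMOD ((k.natAbs : ℕ) : ℤ)] := by
          rw [hmodk]
          exact g2.symm.trans ((hval x g1.2.2.2).trans hj2.symm)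
        unfold Int.ModEq at g3
        rw [Int.emod_eq_of_lt (by omega) (by omega), Int.emod_eq_of_lt (by omega) (by omega)] at g3
        exact_mod_cast g3
      rw [this, Set.ncard_empty]
      simp
    · intro h5
      rw [mem_range] at h5
      omega
  rw [e1] at h2
  exact h2

end Pool.Agent.Run7.h145.QK
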